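import Pool.Agent.Run7.h412.NR.Iface

/-!
# MP_0272f9_lc, pieces SOUND and COMPL: correctness of the search for a repetitive path
-/

set_option autoImplicit false

namespace Pool.Agent.Run7.h111.NR

open Pool.Agent.NPC Pool.Agent.Run7.h412.NR

/-- the invariant of the states of the search -/
structure Good (m : List (List Bool)) (c h : List ℕ) (s : St) : Prop where
  ne : s.1 ≠ []
  len : s.1.length = s.2.length
  lab : (used h s).Nodup
  lt : ∀ x ∈ s.1 ++ s.2, x < m.length
  ch1 : s.1.reverse.IsChain (fun x y => adj m x y = true)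
  ch2 : s.2.reverse.IsChain (fun x y => adj m x y = true)
  col : s.1.map (fun x => c.getD x 0) = s.2.map (fun x => c.getD x 0)

theorem Good.ne2 {m : List (List Bool)} {c h : List ℕ} {s : St} (g : Good m c h s) : s.2 ≠ [] := by
  intro h0
  have := g.len
  rw [h0, List.length_nil, List.length_eq_zero_iff] at this
  exact g.ne this

theorem mem_dedup_of {L : ℕ} {h : List ℕ} {F : List St} {s : St} (hs : s ∈ dedup L h F) :
    s ∈ F := by
  have key : ∀ (F acc : List St), s ∈ F.foldl
      (fun acc s => if key L h s ∈ acc.map (key L h) then acc else s :: acc) acc →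
      s ∈ F ∨ s ∈ acc := by
    intro F
    induction F with
    | nil => intro acc h1; exact Or.inr h1
    | cons a F ih =>
      intro acc h1
      rw [List.foldl_cons] at h1
      rcases ih _ h1 with h2 | h2
      · exact Or.inl (List.mem_cons_of_mem _ h2)
      · split_ifs at h2 with h3
        · exact Or.inr h2
        · rcases List.mem_cons.1 h2 with h4 | h4
          · exact Or.inl (h4 ▸ List.mem_cons_self)
          · exact Or.inr h4
  rcases key F [] hs with h1 | h1
  · exact h1
  · exact absurd h1 List.not_mem_nil

theorem exists_dedup {L : ℕ} {h : List ℕ} {F : List St} {s : St} (hs : s ∈ F) :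
    ∃ s' ∈ dedup L h F, key L h s' = key L h s := by
  have key0 : ∀ (F acc : List St), (s ∈ F ∨ ∃ s' ∈ acc, key L h s' = key L h s) →
      ∃ s' ∈ F.foldl
      (fun acc s => if key L h s ∈ acc.map (key L h) then acc else s :: acc) acc,
        key L h s' = key L h s := by
    intro F
    induction F with
    | nil =>
      intro acc h1
      rcases h1 with h1 | h1
      · exact absurd h1 List.not_mem_nil
      · exact h1
    | cons a F ih =>
      intro acc h1
      rw [List.foldl_cons]
      apply ih
      rcases h1 with h1 | ⟨s', h2, h3⟩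
      · rcases List.mem_cons.1 h1 with h2 | h2
        · right
          split_ifs with h4
          · obtain ⟨s', h5, h6⟩ := List.mem_map.1 h4
            exact ⟨s', h5, by rw [h6, h2]⟩
          · exact ⟨a, List.mem_cons_self, by rw [h2]⟩
        · exact Or.inl h2
      · right
        split_ifs with h4
        · exact ⟨s', h2, h3⟩
        · exact ⟨s', List.mem_cons_of_mem _ h2, h3⟩
  exact key0 F [] (Or.inl hs)

theorem good_start {m : List (List Bool)} {c h : List ℕ} {s : St} (hs : s ∈ start m c h) :
    Good m c h s := by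
  unfold start at hs
  obtain ⟨x, hx, hs⟩ := List.mem_flatMap.1 hs
  obtain ⟨y, hy, rfl⟩ := List.mem_map.1 hs
  obtain ⟨hy1, hy2⟩ := List.mem_filter.1 hy
  rw [List.mem_range] at hx hy1
  simp only [Bool.and_eq_true, decide_eq_true_eq, Bool.not_eq_true', decide_eq_false_iff_not]
    at hy2
  refine ⟨by simp, by simp, ?_, ?_, by simp, by simp, ?_⟩
  · simp only [used, List.cons_append, List.nil_append, List.map_cons, List.map_nil,
      List.nodup_cons, List.mem_singleton, List.not_mem_nil, not_false_eq_true,
      List.nodup_nil, and_self, and_true]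
    exact hy2.2
  · intro z hz
    simp only [List.cons_append, List.nil_append, List.mem_cons, List.not_mem_nil, or_false] at hz
    rcases hz with rfl | rfl
    · exact hx
    · exact hy1
  · simp only [List.map_cons, List.map_nil]
    rw [hy2.1]

theorem good_ext {m : List (List Bool)} {c h : List ℕ} {s t : St} (g : Good m c h s)
    (ht : t ∈ ext m c h s) : Good m c h t := by
  unfold ext at ht
  obtain ⟨x, hx, ht⟩ := List.mem_flatMap.1 ht
  obtain ⟨y, hy, rfl⟩ := List.mem_map.1 ht
  obtain ⟨hy1, hy2⟩ := List.mem_filter.1 hy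
  rw [List.mem_range] at hx hy1
  simp only [ok, Bool.and_eq_true, decide_eq_true_eq, Bool.not_eq_true', decide_eq_false_iff_not]
    at hy2
  obtain ⟨⟨⟨⟨⟨a1, a2⟩, a3⟩, a4⟩, a5⟩, a6⟩ := hy2
  obtain ⟨x0, xs, hxs⟩ := List.exists_cons_of_ne_nil g.ne
  obtain ⟨y0, ys, hys⟩ := List.exists_cons_of_ne_nil g.ne2
  have hu : used h (x :: s.1, y :: s.2) =
      h.getD x 0 :: (s.1.map (fun v => h.getD v 0) ++ h.getD y 0 ::
        s.2.map (fun v => h.getD v 0)) := by
    simp [used]
  have hu2 : used h s = s.1.map (fun v => h.getD v 0) ++ s.2.map (fun v => h.getD v 0) := by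
    simp [used]
  refine ⟨by simp, by simp [g.len], ?_, ?_, ?_, ?_, ?_⟩
  · rw [hu, List.nodup_cons, List.nodup_middle]
    have hl := g.lab
    rw [hu2] at a5 a6 hl
    refine ⟨?_, List.nodup_cons.2 ⟨a6, hl⟩⟩
    intro hmem
    rcases List.mem_append.1 hmem with h1 | h1
    · exact a5 (List.mem_append.2 (Or.inl h1))
    · rcases List.mem_cons.1 h1 with h2 | h2
      · exact a4 h2
      · exact a5 (List.mem_append.2 (Or.inr h2))
  · intro z hz
    simp only [List.cons_append, List.mem_cons, List.mem_append] at hz
    rcases hz with rfl | h1 | rfl | h1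
    · exact hx
    · exact g.lt z (List.mem_append.2 (Or.inl h1))
    · exact hy1
    · exact g.lt z (List.mem_append.2 (Or.inr h1))
  · simp only [List.reverse_cons]
    rw [List.isChain_append]
    refine ⟨g.ch1, by simp, ?_⟩
    intro u hu1 v hv
    rw [List.getLast?_reverse, hxs] at hu1
    simp only [List.head?_cons, Option.mem_some] at hu1 hv
    subst hu1
    subst hv
    rw [hxs] at a1
    simpa using a1
  · simp only [List.reverse_cons]
    rw [List.isChain_append]
    refine ⟨g.ch2, by simp, ?_⟩
    intro u hu1 v hv
    rw [List.getLast?_reverse, hys] at hu1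
    simp only [List.head?_cons, Option.mem_some] at hu1 hv
    subst hu1
    subst hv
    rw [hys] at a2
    simpa using a2
  · simp only [List.map_cons]
    rw [a3, g.col]

/-- the property of the path found -/
def Res (m : List (List Bool)) (c : List ℕ) (l : List ℕ) : Prop :=
  ∃ p q : List ℕ, l = p ++ q ∧ p ≠ [] ∧ p.length = q.length ∧ (p ++ q).Nodup ∧
    (∀ x ∈ p ++ q, x < m.length) ∧ (p ++ q).IsChain (fun x y => adj m x y = true) ∧
    p.map (fun x => c.getD x 0) = q.map (fun x => c.getD x 0)

theorem res_of_good {m : List (List Bool)} {c h : List ℕ} {s : St} (g : Good m c h s)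
    (ha : adj m (s.1.head?.getD 0) (s.2.reverse.head?.getD 0) = true) :
    Res m c (s.1.reverse ++ s.2.reverse) := by
  obtain ⟨x0, xs, hxs⟩ := List.exists_cons_of_ne_nil g.ne
  refine ⟨s.1.reverse, s.2.reverse, rfl, by simpa using g.ne, by simp [g.len], ?_, ?_, ?_, ?_⟩
  · have h1 := List.Nodup.of_map _ g.lab
    rw [List.nodup_append'] at h1 ⊢
    refine ⟨List.nodup_reverse.2 h1.1, List.nodup_reverse.2 h1.2.1, ?_⟩
    intro z hz1 hz2
    exact h1.2.2 (List.mem_reverse.1 hz1) (List.mem_reverse.1 hz2)
  · intro z hz
    apply g.lt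
    rcases List.mem_append.1 hz with h1 | h1
    · exact List.mem_append.2 (Or.inl (List.mem_reverse.1 h1))
    · exact List.mem_append.2 (Or.inr (List.mem_reverse.1 h1))
  · rw [List.isChain_append]
    refine ⟨g.ch1, g.ch2, ?_⟩
    intro u hu v hv
    rw [List.getLast?_reverse, Option.mem_def] at hu
    rw [Option.mem_def] at hv
    rw [hu, hv] at ha
    simpa using ha
  · rw [List.map_reverse, List.map_reverse, g.col]

theorem round_inv {m : List (List Bool)} {c h : List ℕ} (a : List St × List ℕ)
    (h1 : ∀ s ∈ a.1, Good m c h s) (h2 : a.2 ≠ [] → Res m c a.2) :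
    (∀ s ∈ (round m c h a).1, Good m c h s) ∧
      ((round m c h a).2 ≠ [] → Res m c (round m c h a).2) := by
  unfold Pool.Agent.Run7.h412.NR.round
  split_ifs with h3
  · cases h4 : (closed m a.1).head? with
    | none =>
      refine ⟨?_, fun h5 => absurd rfl h5⟩
      intro s hs
      obtain ⟨t, ht, hs⟩ := List.mem_flatMap.1 (mem_dedup_of hs)
      exact good_ext (h1 t ht) hs
    | some s =>
      refine ⟨h1, fun _ => ?_⟩
      have h5 : s ∈ closed m a.1 := List.mem_of_mem_head? h4
      obtain ⟨h6, h7⟩ := List.mem_filter.1 h5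
      exact res_of_good (h1 s h6) h7
  · exact ⟨h1, h2⟩

theorem iter_inv {m : List (List Bool)} {c h : List ℕ} (i : ℕ) :
    (∀ s ∈ ((round m c h)^[i] (start m c h, [])).1, Good m c h s) ∧
      (((round m c h)^[i] (start m c h, [])).2 ≠ [] →
        Res m c ((round m c h)^[i] (start m c h, [])).2) := by
  induction i with
  | zero => exact ⟨fun s hs => good_start hs, fun h1 => absurd rfl h1⟩
  | succ i ih =>
    rw [Function.iterate_succ_apply']
    exact round_inv _ ih.1 ih.2

/-- SOUND: soundness of the search. -/
theorem t_sound : S_SOUND := by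
  intro m c h h1
  exact (iter_inv (T m.length)).2 h1

/-- two states have the same key -/
theorem key_eq_iff {L : ℕ} {h : List ℕ} {s t : St} : key L h s = key L h t ↔
    s.1.head?.getD 0 = t.1.head?.getD 0 ∧ s.2.head?.getD 0 = t.2.head?.getD 0 ∧
    s.2.reverse.head?.getD 0 = t.2.reverse.head?.getD 0 ∧
    ∀ l < L, l ∈ used h s ↔ l ∈ used h t := by
  unfold key
  simp only [Prod.mk.injEq, List.map_inj_left, List.mem_range, decide_eq_decide]
  tauto

theorem used_cons (h : List ℕ) (x y l : ℕ) (s : St) : l ∈ used h (x :: s.1, y :: s.2) ↔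
    l = h.getD x 0 ∨ l = h.getD y 0 ∨ l ∈ used h s := by
  simp only [used, List.cons_append, List.map_cons, List.map_append, List.mem_cons,
    List.mem_append]
  tauto

theorem mem_ext {m : List (List Bool)} {c h : List ℕ} {s : St} {x y : ℕ} (hx : x < m.length)
    (hy : y < m.length) (ho : ok m c h s x y = true) : (x :: s.1, y :: s.2) ∈ ext m c h s := by
  unfold ext
  refine List.mem_flatMap.2 ⟨x, List.mem_range.2 hx, List.mem_map.2 ⟨y, ?_, rfl⟩⟩
  exact List.mem_filter.2 ⟨List.mem_range.2 hy, ho⟩

theorem round_nil {m : List (List Bool)} {c h : List ℕ} (a : List St × List ℕ)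
    (h1 : ∀ s ∈ a.1, Good m c h s) (h2 : (round m c h a).2 = []) :
    a.2 = [] ∧ closed m a.1 = [] ∧
      round m c h a = (dedup (Lm m.length) h (a.1.flatMap (ext m c h)), []) := by
  unfold Pool.Agent.Run7.h412.NR.round at h2 ⊢
  split_ifs at h2 with h3
  · rw [if_pos h3]
    cases h4 : (closed m a.1).head? with
    | none =>
      exact ⟨h3, List.head?_eq_none_iff.1 h4, by simp⟩
    | some s =>
      exfalso
      rw [h4] at h2
      have h5 : s ∈ closed m a.1 := List.mem_of_mem_head? h4
      have h6 := (h1 s (List.mem_filter.1 h5).1).ne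
      simp only [List.append_eq_nil_iff, List.reverse_eq_nil_iff] at h2
      exact h6 h2.1
  · exact absurd h2 h3

/-- COMPL: completeness of the search. -/
theorem t_compl : S_COMPL := by
  intro m c h p q hp hlen hT hlt hlab hnd hch hcol hnil
  set F := fun i => (round m c h)^[i] (start m c h, ([] : List ℕ)) with hF
  have hFs : ∀ i, F (i + 1) = round m c h (F i) := fun i => Function.iterate_succ_apply' _ _ _
  have hgood : ∀ i, ∀ s ∈ (F i).1, Good m c h s := fun i => (iter_inv i).1
  have hn : ∀ j, j ≤ T m.length → (F (T m.length - j)).2 = [] := by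
    intro j
    induction j with
    | zero => intro _; exact hnil
    | succ j ih =>
      intro hj
      have h1 := ih (by omega)
      rw [show T m.length - j = (T m.length - (j + 1)) + 1 by omega, hFs] at h1
      exact (round_nil _ (hgood _) h1).1
  have hn' : ∀ i, i ≤ T m.length → (F i).2 = [] := by
    intro i hi
    have := hn (T m.length - i) (by omega)
    rwa [show T m.length - (T m.length - i) = i by omega] at this
  have hstep : ∀ i, i < T m.length → closed m (F i).1 = [] ∧
      F (i + 1) = (dedup (Lm m.length) h ((F i).1.flatMap (ext m c h)), []) := by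
    intro i hi
    have h1 := hn' (i + 1) hi
    rw [hFs] at h1
    have h2 := round_nil _ (hgood i) h1
    exact ⟨h2.2.1, by rw [hFs]; exact h2.2.2⟩
  have hp0 : 0 < p.length := List.length_pos_iff.2 hp
  -- elementary facts on `p`, `q`
  have hchp := (List.isChain_append.1 hch).1
  have hchq := (List.isChain_append.1 hch).2.1
  have hpq := (List.isChain_append.1 hch).2.2
  have hmemp : ∀ i (hi : i < p.length), p[i] ∈ p ++ q :=
    fun i hi => List.mem_append.2 (Or.inl (List.getElem_mem _))
  have hmemq : ∀ i (hi : i < q.length), q[i] ∈ p ++ q :=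
    fun i hi => List.mem_append.2 (Or.inr (List.getElem_mem _))
  have hcol' : ∀ i (hi : i < p.length) (hi' : i < q.length),
      c.getD p[i] 0 = c.getD q[i] 0 := by
    intro i hi hi'
    have h1 : (p.map (fun x => c.getD x 0))[i]'(by simpa using hi) =
        (q.map (fun x => c.getD x 0))[i]'(by simpa using hi') := by
      simp only [hcol]
    simpa using h1
  rw [List.map_append, List.nodup_append'] at hnd
  obtain ⟨hn1, hn2, hn3⟩ := hnd
  have hd : ∀ i j (hi : i < p.length) (hj : j < q.length),
      h.getD p[i] 0 ≠ h.getD q[j] 0 := by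
    intro i j hi hj he
    refine hn3 (a := h.getD p[i] 0) (List.mem_map.2 ⟨p[i], List.getElem_mem _, rfl⟩) ?_
    rw [he]
    exact List.mem_map.2 ⟨q[j], List.getElem_mem _, rfl⟩
  have hd1 : ∀ i (hi : i < p.length), h.getD p[i] 0 ∉ (p.take i).map (fun v => h.getD v 0) := by
    intro i hi hmem
    have h1 := hn1
    rw [← List.take_append_drop i p, List.map_append, List.nodup_append'] at h1
    refine h1.2.2 hmem ?_
    rw [List.drop_eq_getElem_cons hi]
    exact List.mem_cons_self
  have hd2 : ∀ i (hi : i < q.length), h.getD q[i] 0 ∉ (q.take i).map (fun v => h.getD v 0) := by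
    intro i hi hmem
    have h1 := hn2
    rw [← List.take_append_drop i q, List.map_append, List.nodup_append'] at h1
    refine h1.2.2 hmem ?_
    rw [List.drop_eq_getElem_cons hi]
    exact List.mem_cons_self
  have hsub1 : ∀ i l, l ∈ (p.take i).map (fun v => h.getD v 0) →
      ∃ j, ∃ hj : j < p.length, l = h.getD p[j] 0 := by
    intro i l hl
    obtain ⟨v, hv, rfl⟩ := List.mem_map.1 hl
    obtain ⟨j, hj, rfl⟩ := List.mem_iff_getElem.1 (List.mem_of_mem_take hv)
    exact ⟨j, hj, rfl⟩
  have hsub2 : ∀ i l, l ∈ (q.take i).map (fun v => h.getD v 0) →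
      ∃ j, ∃ hj : j < q.length, l = h.getD q[j] 0 := by
    intro i l hl
    obtain ⟨v, hv, rfl⟩ := List.mem_map.1 hl
    obtain ⟨j, hj, rfl⟩ := List.mem_iff_getElem.1 (List.mem_of_mem_take hv)
    exact ⟨j, hj, rfl⟩
  have hinv : ∀ i, i < p.length → ∃ s ∈ (F i).1,
      key (Lm m.length) h s =
        key (Lm m.length) h ((p.take (i + 1)).reverse, (q.take (i + 1)).reverse) := by
    intro i
    induction i with
    | zero =>
      intro _
      refine ⟨([p[0]], [q[0]'(by omega)]), ?_, ?_⟩
      · change _ ∈ start m c h
        unfold start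
        refine List.mem_flatMap.2 ⟨p[0], List.mem_range.2 (hlt _ (hmemp _ _)), ?_⟩
        refine List.mem_map.2 ⟨q[0]'(by omega), List.mem_filter.2
          ⟨List.mem_range.2 (hlt _ (hmemq _ _)), ?_⟩, rfl⟩
        simp only [Bool.and_eq_true, decide_eq_true_eq, Bool.not_eq_true',
          decide_eq_false_iff_not]
        exact ⟨hcol' 0 _ _, hd 0 0 _ _⟩
      · rw [List.take_succ_eq_append_getElem hp0,
          List.take_succ_eq_append_getElem (show 0 < q.length by omega)]
        simp
    | succ i ih =>
      intro hi
      obtain ⟨s, hs, hk⟩ := ih (by omega)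
      have hi' : i + 1 < q.length := by omega
      have hg := hgood i s hs
      obtain ⟨k1, k2, k3, k4⟩ := key_eq_iff.1 hk
      have e1 : (p.take (i + 1 + 1)).reverse = p[i + 1] :: (p.take (i + 1)).reverse := by
        rw [List.take_succ_eq_append_getElem hi, List.reverse_append]
        rfl
      have e2 : (q.take (i + 1 + 1)).reverse = q[i + 1] :: (q.take (i + 1)).reverse := by
        rw [List.take_succ_eq_append_getElem hi', List.reverse_append]
        rfl
      have e3 : (p.take (i + 1)).reverse.head?.getD 0 = p[i] := by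
        rw [List.take_succ_eq_append_getElem (show i < p.length by omega), List.reverse_append]
        rfl
      have e4 : (q.take (i + 1)).reverse.head?.getD 0 = q[i] := by
        rw [List.take_succ_eq_append_getElem (show i < q.length by omega), List.reverse_append]
        rfl
      have hu : ∀ l, l ∈ used h ((p.take (i + 1)).reverse, (q.take (i + 1)).reverse) ↔
          l ∈ (p.take (i + 1)).map (fun v => h.getD v 0) ∨
          l ∈ (q.take (i + 1)).map (fun v => h.getD v 0) := by
        intro l
        simp only [used, List.map_append, List.map_reverse, List.mem_append, List.mem_reverse]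
      have hok : ok m c h s p[i + 1] q[i + 1] = true := by
        simp only [ok, Bool.and_eq_true, decide_eq_true_eq, Bool.not_eq_true',
          decide_eq_false_iff_not]
        simp only at k1 k2
        refine ⟨⟨⟨⟨⟨?_, ?_⟩, hcol' _ _ _⟩, hd _ _ _ _⟩, ?_⟩, ?_⟩
        · rw [k1, e3]
          exact List.isChain_iff_getElem.1 hchp i (by omega)
        · rw [k2, e4]
          exact List.isChain_iff_getElem.1 hchq i (by omega)
        · rw [k4 _ (hlab _ (hmemp _ _)), hu]
          rintro (h1 | h1)
          · exact hd1 (i + 1) hi h1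
          · obtain ⟨j, hj, h2⟩ := hsub2 _ _ h1
            exact hd _ _ _ _ h2
        · rw [k4 _ (hlab _ (hmemq _ _)), hu]
          rintro (h1 | h1)
          · obtain ⟨j, hj, h2⟩ := hsub1 _ _ h1
            exact hd _ _ _ _ h2.symm
          · exact hd2 (i + 1) hi' h1
      have hmem := mem_ext (hlt _ (hmemp (i + 1) hi)) (hlt _ (hmemq (i + 1) hi')) hok
      have hT' : i < T m.length := by omega
      obtain ⟨s', hs', hk'⟩ := exists_dedup (L := Lm m.length) (h := h)
        (List.mem_flatMap.2 ⟨s, hs, hmem⟩)
      refine ⟨s', ?_, hk'.trans ?_⟩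
      · rw [(hstep i hT').2]
        exact hs'
      · rw [e1, e2]
        refine key_eq_iff.2 ⟨rfl, rfl, ?_, ?_⟩
        · simp only [List.reverse_cons]
          obtain ⟨y0, ys, hys⟩ := List.exists_cons_of_ne_nil hg.ne2
          have h1 : s.2.reverse ≠ [] := by simpa using hg.ne2
          have h2 : (q.take (i + 1)).reverse.reverse ≠ [] := by
            rw [List.reverse_reverse]
            intro h3
            have := congrArg List.length h3
            simp only [List.length_take, List.length_nil] at this
            omega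
          rw [List.head?_append_of_ne_nil _ h1, List.head?_append_of_ne_nil _ h2]
          exact k3
        · intro l hl
          have h1 := used_cons h p[i + 1] q[i + 1] l s
          have h2 := used_cons h p[i + 1] q[i + 1] l
            ((p.take (i + 1)).reverse, (q.take (i + 1)).reverse)
          simp only at h2
          rw [h1, h2, k4 l hl]
  obtain ⟨s, hs, hk⟩ := hinv (p.length - 1) (by omega)
  obtain ⟨k1, -, k3, -⟩ := key_eq_iff.1 hk
  have hc0 := (hstep (p.length - 1) (by omega)).1
  have hcl : s ∈ closed m (F (p.length - 1)).1 := by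
    refine List.mem_filter.2 ⟨hs, ?_⟩
    rw [k1, k3]
    simp only
    rw [show p.length - 1 + 1 = p.length by omega, List.take_length,
      List.take_of_length_le (by omega), List.reverse_reverse]
    have hq0 : q ≠ [] := by
      intro h0
      rw [h0, List.length_nil] at hlen
      omega
    obtain ⟨y0, ys, hys⟩ := List.exists_cons_of_ne_nil hq0
    have hlast : p.getLast? = some (p.getLast hp) := List.getLast?_eq_some_getLast hp
    rw [List.head?_reverse, hlast, hys]
    exact hpq _ (by rw [hlast]; rfl) _ (by rw [hys]; rfl)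
  rw [hc0] at hcl
  exact absurd hcl List.not_mem_nil

end Pool.Agent.Run7.h111.NR
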